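import Pool.Agent.helper74.TG.Defs

/-!
# GNU project, module sw:2: the zeta function and its derivatives to the right of `Re s = 1`
-/

namespace Pool.Agent.helper74.TG

open Finset ArithmeticFunction

/-- `(log u)^j u^(-s)` -/
noncomputable def h99_f (j : ℕ) (s : ℂ) (u : ℝ) : ℂ :=
  (Real.log u : ℂ) ^ j * Complex.exp (-s * (Real.log u : ℂ))

/-- The antiderivative of `(log u)^j u^(-s)`. -/
noncomputable def h99_F (s : ℂ) : ℕ → ℝ → ℂ
  | 0, u => Complex.exp ((1 - s) * (Real.log u : ℂ)) / (1 - s)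
  | j + 1, u => Complex.exp ((1 - s) * (Real.log u : ℂ)) * (Real.log u : ℂ) ^ (j + 1) / (1 - s)
      - ((j + 1 : ℕ) : ℂ) / (1 - s) * h99_F s j u

private lemma exp_log_mul (s : ℂ) {u : ℝ} (hu : 0 < u) :
    Complex.exp ((1 - s) * (Real.log u : ℂ)) * ((u⁻¹ : ℝ) : ℂ) =
      Complex.exp (-s * (Real.log u : ℂ)) := by
  have h : ((u⁻¹ : ℝ) : ℂ) = Complex.exp (-(Real.log u : ℂ)) := by
    rw [← Complex.ofReal_neg, ← Complex.ofReal_exp, Real.exp_neg, Real.exp_log hu]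
  rw [h, ← Complex.exp_add]
  congr 1
  ring

lemma h99_F_deriv {s : ℂ} (hs : s ≠ 1) (j : ℕ) {u : ℝ} (hu : 0 < u) :
    HasDerivAt (h99_F s j) (h99_f j s u) u := by
  have hs1 : (1 : ℂ) - s ≠ 0 := sub_ne_zero.2 (Ne.symm hs)
  have hl : HasDerivAt (fun y : ℝ => (Real.log y : ℂ)) ((u⁻¹ : ℝ) : ℂ) u :=
    (Real.hasDerivAt_log hu.ne').ofReal_comp
  have he : HasDerivAt (fun y : ℝ => Complex.exp ((1 - s) * (Real.log y : ℂ)))
      (Complex.exp ((1 - s) * (Real.log u : ℂ)) * ((1 - s) * ((u⁻¹ : ℝ) : ℂ))) u :=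
    (hl.const_mul (1 - s)).cexp
  have hx := exp_log_mul s hu
  induction j with
  | zero =>
    have h1 := he.div_const (1 - s)
    have h2 : Complex.exp ((1 - s) * (Real.log u : ℂ)) * ((1 - s) * ((u⁻¹ : ℝ) : ℂ)) / (1 - s)
        = h99_f 0 s u := by
      rw [h99_f, pow_zero, one_mul, ← hx]
      field_simp
    rw [h2] at h1
    exact h1
  | succ j ih =>
    have h1 := (((he.mul (hl.pow (j + 1))).div_const (1 - s))).sub
      (ih.const_mul (((j + 1 : ℕ) : ℂ) / (1 - s)))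
    refine h1.congr_deriv ?_
    rw [h99_f, h99_f, ← hx]
    simp only [Nat.add_sub_cancel, Pi.pow_apply]
    field_simp
    ring

private lemma exp_norm (s : ℂ) (u : ℝ) :
    ‖Complex.exp ((1 - s) * (Real.log u : ℂ))‖ = Real.exp (-((s.re - 1) * Real.log u)) := by
  rw [Complex.norm_exp]
  congr 1
  simp
  ring

lemma h99_F_norm {δ : ℝ} (hδ : 0 < δ) (j : ℕ) : ∃ K : ℝ, 0 < K ∧
    ∀ s : ℂ, δ ≤ ‖s - 1‖ → ∀ u : ℝ, 1 ≤ u →
    ‖h99_F s j u‖ ≤ K * (1 + Real.log u) ^ j * Real.exp (-((s.re - 1) * Real.log u)) := by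
  induction j with
  | zero =>
    refine ⟨1 / δ, by positivity, fun s h2 u hu => ?_⟩
    rw [h99_F, norm_div, exp_norm, norm_sub_rev, pow_zero, mul_one, div_mul_eq_mul_div, one_mul]
    gcongr
  | succ j ih =>
    obtain ⟨K, hK, h⟩ := ih
    refine ⟨(1 + (j + 1) * K) / δ, by positivity, fun s h2 u hu => ?_⟩
    have hlog : 0 ≤ Real.log u := Real.log_nonneg hu
    have h3 := h s h2 u hu
    set E := Real.exp (-((s.re - 1) * Real.log u)) with hE
    have hE0 : 0 < E := Real.exp_pos _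
    have h2' : δ ≤ ‖1 - s‖ := by rw [norm_sub_rev]; exact h2
    have h4 : ‖Complex.exp ((1 - s) * (Real.log u : ℂ)) * (Real.log u : ℂ) ^ (j + 1) / (1 - s)‖
        ≤ E * (1 + Real.log u) ^ (j + 1) / δ := by
      rw [norm_div, norm_mul, exp_norm, norm_pow, Complex.norm_real,
        Real.norm_of_nonneg hlog]
      gcongr
      linarith
    have h5 : ‖((j + 1 : ℕ) : ℂ) / (1 - s) * h99_F s j u‖ ≤
        (j + 1) / δ * (K * (1 + Real.log u) ^ j * E) := by
      rw [norm_mul, norm_div, Complex.norm_natCast]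
      push_cast
      gcongr
    rw [h99_F]
    refine (norm_sub_le _ _).trans ?_
    refine (add_le_add h4 h5).trans ?_
    have h6 : (1 + Real.log u) ^ j ≤ (1 + Real.log u) ^ (j + 1) :=
      pow_le_pow_right₀ (by linarith) (by omega)
    have h7 : (j + 1) / δ * (K * (1 + Real.log u) ^ j * E) ≤
        (j + 1) / δ * (K * (1 + Real.log u) ^ (j + 1) * E) := by gcongr
    refine (add_le_add_right h7 _).trans (le_of_eq ?_)
    ring

private lemma logpow (j : ℕ) : ∃ A : ℝ, 0 < A ∧ ∀ u : ℝ, 1 ≤ u → (1 + Real.log u) ^ j ≤ A * √u := by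
  refine ⟨2 ^ j * (j.factorial : ℝ) * Real.exp (1 / 2), by positivity, fun u hu => ?_⟩
  have hlog : 0 ≤ Real.log u := Real.log_nonneg hu
  have h1 := Real.pow_div_factorial_le_exp ((1 + Real.log u) / 2) (by linarith) j
  have h2 : Real.exp ((1 + Real.log u) / 2) = Real.exp (1 / 2) * √u := by
    rw [show (1 + Real.log u) / 2 = 1 / 2 + Real.log u / 2 by ring, Real.exp_add]
    congr 1
    rw [← Real.exp_log (Real.sqrt_pos.2 (by linarith : 0 < u)), Real.log_sqrt (by linarith)]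
  rw [h2, div_le_iff₀ (by positivity)] at h1
  calc (1 + Real.log u) ^ j = 2 ^ j * ((1 + Real.log u) / 2) ^ j := by
        rw [← mul_pow]; congr 1; ring
    _ ≤ 2 ^ j * (Real.exp (1 / 2) * √u * (j.factorial : ℝ)) := by gcongr
    _ = _ := by ring

private lemma f_deriv (j : ℕ) (s : ℂ) {x : ℝ} (hx : 0 < x) :
    HasDerivAt (h99_f j s)
      (((j : ℂ) * (Real.log x : ℂ) ^ (j - 1) * ((x⁻¹ : ℝ) : ℂ)) *
        Complex.exp (-s * (Real.log x : ℂ)) +
        (Real.log x : ℂ) ^ j * (Complex.exp (-s * (Real.log x : ℂ)) * (-s * ((x⁻¹ : ℝ) : ℂ)))) x := by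
  have h1 : HasDerivAt (fun y : ℝ => (Real.log y : ℂ)) ((x⁻¹ : ℝ) : ℂ) x :=
    (Real.hasDerivAt_log hx.ne').ofReal_comp
  exact (h1.pow j).mul ((h1.const_mul (-s)).cexp)

private lemma f_lip (j : ℕ) {A : ℝ} (hA0 : 0 < A)
    (hA : ∀ u : ℝ, 1 ≤ u → (1 + Real.log u) ^ j ≤ A * √u) {s : ℂ} (h1 : 1 < s.re) {a x : ℝ}
    (ha : 1 ≤ a) (hx : a ≤ x) (hx1 : x ≤ a + 1) :
    ‖h99_f j s x - h99_f j s a‖ ≤ (j + ‖s‖) * A / (a * √a) := by
  have key : ‖h99_f j s x - h99_f j s a‖ ≤ (j + ‖s‖) * A / (a * √a) * (x - a) := by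
    refine norm_image_sub_le_of_norm_deriv_le_segment' (a := a) (b := x)
      (f := h99_f j s) (fun y hy => (f_deriv j s (by linarith [hy.1])).hasDerivWithinAt) ?_ x
      ⟨hx, le_rfl⟩
    intro y hy
    have hy1 : 1 ≤ y := ha.trans hy.1
    have hy0 : 0 < y := by linarith
    have hlog0 : 0 ≤ Real.log y := Real.log_nonneg hy1
    have hexp : ‖Complex.exp (-s * (Real.log y : ℂ))‖ ≤ y⁻¹ := by
      rw [Complex.norm_exp]
      have : (-s * (Real.log y : ℂ)).re = -(s.re * Real.log y) := by simp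
      rw [this]
      calc Real.exp (-(s.re * Real.log y)) ≤ Real.exp (-Real.log y) := by
            apply Real.exp_le_exp.2
            nlinarith
        _ = y⁻¹ := by rw [Real.exp_neg, Real.exp_log hy0]
    have hj1 : Real.log y ^ (j - 1) ≤ (1 + Real.log y) ^ j := by
      calc Real.log y ^ (j - 1) ≤ (1 + Real.log y) ^ (j - 1) := by gcongr; linarith
        _ ≤ (1 + Real.log y) ^ j := pow_le_pow_right₀ (by linarith) (by omega)
    have hj2 : Real.log y ^ j ≤ (1 + Real.log y) ^ j := by gcongr; linarith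
    have hyi : ‖((y⁻¹ : ℝ) : ℂ)‖ = y⁻¹ := by
      rw [Complex.norm_real, Real.norm_of_nonneg (by positivity)]
    have hP : (0 : ℝ) ≤ (1 + Real.log y) ^ j := by positivity
    have hsq : √y * √y = y := Real.mul_self_sqrt hy0.le
    calc _ ≤ ‖((j : ℂ) * (Real.log y : ℂ) ^ (j - 1) * ((y⁻¹ : ℝ) : ℂ)) *
          Complex.exp (-s * (Real.log y : ℂ))‖ +
          ‖(Real.log y : ℂ) ^ j * (Complex.exp (-s * (Real.log y : ℂ)) *
            (-s * ((y⁻¹ : ℝ) : ℂ)))‖ := norm_add_le _ _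
      _ = ((j : ℝ) * Real.log y ^ (j - 1) * y⁻¹) * ‖Complex.exp (-s * (Real.log y : ℂ))‖ +
          Real.log y ^ j * (‖Complex.exp (-s * (Real.log y : ℂ))‖ * (‖s‖ * y⁻¹)) := by
          rw [norm_mul, norm_mul, norm_mul, norm_mul, norm_mul, norm_mul, norm_pow, norm_pow, hyi,
            Complex.norm_real, Real.norm_of_nonneg hlog0, Complex.norm_natCast, norm_neg]
      _ ≤ ((j : ℝ) * (1 + Real.log y) ^ j * y⁻¹) * y⁻¹ +
          (1 + Real.log y) ^ j * (y⁻¹ * (‖s‖ * y⁻¹)) := by gcongr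
      _ = (j + ‖s‖) * (1 + Real.log y) ^ j / (y * y) := by field_simp
      _ ≤ (j + ‖s‖) * (A * √y) / (y * y) := by
          have := hA y hy1
          gcongr
      _ = (j + ‖s‖) * A / (y * √y) := by
          rw [div_eq_div_iff (by positivity) (by positivity)]
          linear_combination (j + ‖s‖) * A * y * hsq
      _ ≤ _ := by
          have := hy.1
          gcongr
  refine key.trans ?_
  have : 0 ≤ (j + ‖s‖) * A / (a * √a) := by positivity
  nlinarith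

private lemma sqrt_tele {n : ℝ} (hn : 1 ≤ n) : 1 / (n * √n) ≤ 4 * (1 / √n - 1 / √(n + 1)) := by
  have h0 : 0 < √n := Real.sqrt_pos.2 (by linarith)
  have h1 : 0 < √(n + 1) := Real.sqrt_pos.2 (by linarith)
  have hs0 : √n * √n = n := Real.mul_self_sqrt (by linarith)
  have hs1 : √(n + 1) * √(n + 1) = n + 1 := Real.mul_self_sqrt (by linarith)
  set a := √n
  set b := √(n + 1)
  have hab : a ≤ b := by nlinarith
  have hb2 : b * b ≤ 2 * (a * a) := by linarith
  have hb : b ≤ 3 / 2 * a := by nlinarith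
  have h2 : 1 / a - 1 / b = 1 / (a * b * (a + b)) := by
    have : (b - a) * (a + b) = 1 := by ring_nf; nlinarith
    field_simp
    nlinarith
  rw [h2, ← hs0, mul_one_div, div_le_div_iff₀ (by positivity) (by positivity), one_mul]
  have h3 : a + b ≤ 5 / 2 * a := by linarith
  have h4 : a * b * (a + b) ≤ a * (3 / 2 * a) * (5 / 2 * a) := by gcongr
  nlinarith [pow_pos h0 3]

private lemma F_step (j : ℕ) {A : ℝ} (hA0 : 0 < A)
    (hA : ∀ u : ℝ, 1 ≤ u → (1 + Real.log u) ^ j ≤ A * √u) {s : ℂ} (h1 : 1 < s.re) {a : ℝ}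
    (ha : 1 ≤ a) :
    ‖h99_F s j (a + 1) - h99_F s j a - h99_f j s a‖ ≤ (j + ‖s‖) * A / (a * √a) := by
  have hs : s ≠ 1 := by
    rintro rfl
    simp at h1
  have h := norm_image_sub_le_of_norm_deriv_le_segment' (a := a) (b := a + 1)
    (f := fun u : ℝ => h99_F s j u - (u : ℂ) * h99_f j s a)
    (f' := fun u => h99_f j s u - 1 * h99_f j s a)
    (C := (j + ‖s‖) * A / (a * √a))
    (fun y hy => by
      have h2 : HasDerivAt (fun u : ℝ => (u : ℂ)) 1 y := (hasDerivAt_id y).ofReal_comp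
      exact ((h99_F_deriv hs j (by linarith [hy.1])).sub (h2.mul_const _)).hasDerivWithinAt)
    (fun y hy => by
      rw [one_mul]
      exact f_lip j hA0 hA h1 ha hy.1 hy.2.le) (a + 1) ⟨by linarith, le_rfl⟩
  rw [add_sub_cancel_left, mul_one] at h
  refine le_trans (le_of_eq ?_) h
  congr 1
  push_cast
  ring

private lemma sum_cmp (j : ℕ) {A : ℝ} (hA0 : 0 < A)
    (hA : ∀ u : ℝ, 1 ≤ u → (1 + Real.log u) ^ j ≤ A * √u) {s : ℂ} (h1 : 1 < s.re) {N M : ℕ}
    (hN : 1 ≤ N) (hM : N ≤ M) :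
    ‖∑ n ∈ Ico N M, h99_f j s n - (h99_F s j M - h99_F s j N)‖ ≤
      (j + ‖s‖) * A * (4 * (1 / √(N : ℝ) - 1 / √(M : ℝ))) := by
  induction M, hM using Nat.le_induction with
  | base => simp
  | succ M hM ih =>
    have hM1 : (1 : ℝ) ≤ M := by exact_mod_cast hN.trans hM
    have h2 := F_step j hA0 hA h1 hM1
    have h3 := sqrt_tele hM1
    rw [sum_Ico_succ_top hM]
    have e : ∑ n ∈ Ico N M, h99_f j s n + h99_f j s M - (h99_F s j ((M + 1 : ℕ) : ℝ) - h99_F s j N)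
        = (∑ n ∈ Ico N M, h99_f j s n - (h99_F s j M - h99_F s j N)) -
          (h99_F s j ((M : ℝ) + 1) - h99_F s j M - h99_f j s M) := by
      push_cast
      ring
    rw [e]
    refine (norm_sub_le _ _).trans ?_
    have h4 : (j + ‖s‖) * A / (M * √(M : ℝ)) ≤
        (j + ‖s‖) * A * (4 * (1 / √(M : ℝ) - 1 / √((M : ℝ) + 1))) := by
      rw [div_eq_mul_one_div]
      gcongr
    push_cast
    calc _ ≤ (j + ‖s‖) * A * (4 * (1 / √(N : ℝ) - 1 / √(M : ℝ))) +
          (j + ‖s‖) * A * (4 * (1 / √(M : ℝ) - 1 / √((M : ℝ) + 1))) :=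
          add_le_add ih (h2.trans h4)
      _ = _ := by ring

private lemma harm (N : ℕ) : ∑ n ∈ Ico 1 N, (1 : ℝ) / n ≤ 1 + Real.log N := by
  have h := harmonic_le_one_add_log N
  rw [harmonic_eq_sum_Icc] at h
  push_cast at h
  have h2 : ∑ n ∈ Ico 1 N, (1 : ℝ) / n ≤ ∑ n ∈ Icc 1 N, ((n : ℝ))⁻¹ := by
    simp_rw [one_div]
    exact sum_le_sum_of_subset_of_nonneg (fun x hx => by
      simp only [mem_Ico, mem_Icc] at hx ⊢; omega) (fun _ _ _ => by positivity)
  exact h2.trans h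

/-- The basic bound by comparison with an integral. -/
lemma h99_ZZ_main (j : ℕ) : ∃ A : ℝ, 0 < A ∧ ∀ s : ℂ, 1 < s.re → ∀ N : ℕ, 1 ≤ N →
    ‖ZZ j s‖ ≤ (1 + Real.log N) ^ (j + 1) + ‖h99_F s j N‖ + (j + ‖s‖) * A * 4 / √(N : ℝ) := by
  obtain ⟨A, hA0, hA⟩ := logpow j
  refine ⟨A, hA0, fun s h1 N hN => ?_⟩
  have hN1 : (1 : ℝ) ≤ N := by exact_mod_cast hN
  have hlN : 0 ≤ Real.log N := Real.log_nonneg hN1
  by_cases hsum : Summable (LSeries.term (fun n => (Real.log n : ℂ) ^ j) s)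
  swap
  · rw [ZZ, LSeries, tsum_eq_zero_of_not_summable hsum, norm_zero]
    positivity
  have hterm : ∀ n : ℕ, n ≠ 0 → LSeries.term (fun n : ℕ => (Real.log n : ℂ) ^ j) s n =
      h99_f j s n := by
    intro n hn
    have hn' : (n : ℂ) ≠ 0 := by exact_mod_cast hn
    rw [LSeries.term_of_ne_zero hn, h99_f, Complex.cpow_def_of_ne_zero hn',
      ← Complex.natCast_log, div_eq_mul_inv, ← Complex.exp_neg]
    congr 2
    ring
  have ht := hsum.hasSum.tendsto_sum_nat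
  have hF : Filter.Tendsto (fun M : ℕ => ‖h99_F s j M‖) Filter.atTop (nhds 0) := by
    have hs : s ≠ 1 := by
      rintro rfl
      simp at h1
    obtain ⟨K, hK, hKs⟩ := h99_F_norm (norm_pos_iff.2 (sub_ne_zero.2 hs)) j
    set c := s.re - 1 with hc
    have hc0 : 0 < c := by rw [hc]; linarith
    have h6 : Filter.Tendsto (fun M : ℕ => c * (1 + Real.log M)) Filter.atTop Filter.atTop :=
      (Filter.tendsto_atTop_add_const_left _ 1
        (Real.tendsto_log_atTop.comp tendsto_natCast_atTop_atTop)).const_mul_atTop hc0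
    have h7 := ((Real.tendsto_pow_mul_exp_neg_atTop_nhds_zero j).comp h6).const_mul
      (K / c ^ j * Real.exp c)
    rw [mul_zero] at h7
    refine squeeze_zero' (Filter.Eventually.of_forall fun M => norm_nonneg _) ?_ h7
    filter_upwards [Filter.eventually_ge_atTop 1] with M hM
    have hM1 : (1 : ℝ) ≤ M := by exact_mod_cast hM
    refine (hKs s le_rfl M hM1).trans (le_of_eq ?_)
    simp only [Function.comp]
    rw [mul_pow, show -((s.re - 1) * Real.log M) = c + -(c * (1 + Real.log M)) by rw [hc]; ring,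
      Real.exp_add]
    field_simp
  have hbd : ∀ᶠ M : ℕ in Filter.atTop,
      ‖∑ n ∈ range M, LSeries.term (fun n : ℕ => (Real.log n : ℂ) ^ j) s n‖ ≤
      (1 + Real.log N) ^ (j + 1) + ‖h99_F s j N‖ + (j + ‖s‖) * A * 4 / √(N : ℝ) +
        ‖h99_F s j M‖ := by
    filter_upwards [Filter.eventually_ge_atTop N] with M hM
    have e1 : ∑ n ∈ range M, LSeries.term (fun n : ℕ => (Real.log n : ℂ) ^ j) s n =
        ∑ n ∈ Ico 1 N, h99_f j s n + ∑ n ∈ Ico N M, h99_f j s n := by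
      rw [sum_Ico_consecutive _ hN hM, range_eq_Ico,
        sum_eq_sum_Ico_succ_bot (by omega), LSeries.term_zero, zero_add]
      exact sum_congr rfl fun n hn => hterm n (by rw [mem_Ico] at hn; omega)
    have h2 : ‖∑ n ∈ Ico 1 N, h99_f j s n‖ ≤ (1 + Real.log N) ^ (j + 1) := by
      calc ‖∑ n ∈ Ico 1 N, h99_f j s n‖ ≤ ∑ n ∈ Ico 1 N, (1 + Real.log N) ^ j * (1 / n) := by
            refine norm_sum_le_of_le _ fun n hn => ?_
            rw [mem_Ico] at hn
            have hn1 : (1 : ℝ) ≤ n := by exact_mod_cast hn.1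
            have hnN : (n : ℝ) ≤ N := by exact_mod_cast hn.2.le
            have hln : 0 ≤ Real.log n := Real.log_nonneg hn1
            have hlnN : Real.log n ≤ Real.log N := Real.log_le_log (by linarith) hnN
            rw [h99_f, norm_mul, norm_pow, Complex.norm_real, Real.norm_of_nonneg hln,
              Complex.norm_exp]
            have : (-s * (Real.log n : ℂ)).re = -(s.re * Real.log n) := by
              rw [Complex.mul_re, Complex.ofReal_re, Complex.ofReal_im, Complex.neg_re]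
              ring
            rw [this]
            have h5 : Real.exp (-(s.re * Real.log n)) ≤ 1 / n := by
              calc Real.exp (-(s.re * Real.log n)) ≤ Real.exp (-Real.log n) := by
                    apply Real.exp_le_exp.2
                    nlinarith
                _ = 1 / n := by rw [Real.exp_neg, Real.exp_log (by linarith), one_div]
            gcongr
            linarith
        _ = (1 + Real.log N) ^ j * ∑ n ∈ Ico 1 N, (1 : ℝ) / n := by rw [mul_sum]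
        _ ≤ (1 + Real.log N) ^ j * (1 + Real.log N) := by
            have := harm N
            gcongr
        _ = _ := by ring
    have h3 := sum_cmp j hA0 hA h1 hN hM
    have h4 : ‖∑ n ∈ Ico N M, h99_f j s n‖ ≤ (j + ‖s‖) * A * 4 / √(N : ℝ) + ‖h99_F s j M‖ +
        ‖h99_F s j N‖ := by
      have e2 : ∑ n ∈ Ico N M, h99_f j s n = (∑ n ∈ Ico N M, h99_f j s n -
          (h99_F s j M - h99_F s j N)) + (h99_F s j M - h99_F s j N) := by ring
      rw [e2]
      have h6 := norm_sub_le (h99_F s j M) (h99_F s j N)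
      have h7 : (j + ‖s‖) * A * (4 * (1 / √(N : ℝ) - 1 / √(M : ℝ))) ≤
          (j + ‖s‖) * A * 4 / √(N : ℝ) := by
        have : 0 ≤ 1 / √(M : ℝ) := by positivity
        have e3 : (j + ‖s‖) * A * 4 / √(N : ℝ) = (j + ‖s‖) * A * (4 * (1 / √(N : ℝ))) := by ring
        rw [e3]
        gcongr
        linarith
      refine (norm_add_le _ _).trans ?_
      linarith
    rw [e1]
    refine (norm_add_le _ _).trans ?_
    linarith
  have h5 := le_of_tendsto_of_tendsto ht.norm ((tendsto_const_nhds (x := (1 + Real.log N) ^ (j + 1)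
    + ‖h99_F s j N‖ + (j + ‖s‖) * A * 4 / √(N : ℝ))).add hF) hbd
  rw [add_zero] at h5
  exact h5

private lemma choose_N (t : ℝ) : ∃ N : ℕ, 1 ≤ N ∧ 2 + |t| ≤ √(N : ℝ) ∧
    Real.log N ≤ 3 * Real.log (2 + |t|) := by
  have ht : 0 ≤ |t| := abs_nonneg t
  refine ⟨⌈(2 + |t|) ^ 2⌉₊, Nat.one_le_ceil_iff.2 (by positivity), ?_, ?_⟩
  · apply Real.le_sqrt_of_sq_le
    exact Nat.le_ceil _
  · have h1 : ((⌈(2 + |t|) ^ 2⌉₊ : ℕ) : ℝ) ≤ (2 + |t|) ^ 2 + 1 :=
      (Nat.ceil_lt_add_one (by positivity)).le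
    have h0 : (0 : ℝ) < ((⌈(2 + |t|) ^ 2⌉₊ : ℕ) : ℝ) := by
      have : 0 < ⌈(2 + |t|) ^ 2⌉₊ := Nat.ceil_pos.2 (by positivity)
      exact_mod_cast this
    have h2 : (2 + |t|) ^ 2 + 1 ≤ (2 + |t|) ^ 3 := by nlinarith [mul_nonneg ht ht]
    calc Real.log ((⌈(2 + |t|) ^ 2⌉₊ : ℕ) : ℝ) ≤ Real.log ((2 + |t|) ^ 3) :=
          Real.log_le_log h0 (h1.trans h2)
      _ = 3 * Real.log (2 + |t|) := by rw [Real.log_pow]; norm_num

private lemma norm_le_of {s : ℂ} (h1 : 1 < s.re) (h2 : s.re ≤ 2) : ‖s‖ ≤ 2 + |s.im| := by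
  refine (Complex.norm_le_abs_re_add_abs_im s).trans ?_
  rw [abs_of_pos (by linarith)]
  linarith

private lemma err_le {j : ℕ} {A : ℝ} (hA : 0 < A) {s : ℂ} (h1 : 1 < s.re) (h2 : s.re ≤ 2) {N : ℕ}
    (hN : 2 + |s.im| ≤ √(N : ℝ)) : (j + ‖s‖) * A * 4 / √(N : ℝ) ≤ 4 * A * (j + 1) := by
  have ht : 0 ≤ |s.im| := abs_nonneg _
  have h0 : 0 < √(N : ℝ) := by linarith
  rw [div_le_iff₀ h0]
  have h3 := norm_le_of h1 h2
  have hj : (0 : ℝ) ≤ j := Nat.cast_nonneg j
  have h4 : j + ‖s‖ ≤ (j + 1) * √(N : ℝ) := by nlinarith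
  calc (j + ‖s‖) * A * 4 ≤ ((j + 1) * √(N : ℝ)) * A * 4 := by gcongr
    _ = _ := by ring

/-- sw:2 -/
theorem ZZ_bound_t (j : ℕ) : ∃ C : ℝ, 0 < C ∧ ∀ s : ℂ, 1 < s.re → s.re ≤ 2 → 1 ≤ |s.im| →
    ‖ZZ j s‖ ≤ C * ll 1 s ^ (j + 1) := by
  obtain ⟨A, hA0, hA⟩ := h99_ZZ_main j
  obtain ⟨K, hK0, hK⟩ := h99_F_norm one_pos j
  refine ⟨3 ^ (j + 1) + K * 3 ^ j + 4 * A * (j + 1), by positivity, fun s h1 h2 h3 => ?_⟩
  obtain ⟨N, hN1, hN2, hN3⟩ := choose_N s.im
  have hN1' : (1 : ℝ) ≤ N := by exact_mod_cast hN1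
  have hlN : 0 ≤ Real.log N := Real.log_nonneg hN1'
  have hlog2 : 0 ≤ Real.log (2 + |s.im|) := Real.log_nonneg (by linarith)
  have hll : ll 1 s = 1 + Real.log (2 + |s.im|) := by simp [ll]
  have hll1 : 1 ≤ ll 1 s := by rw [hll]; linarith
  have hN4 : 1 + Real.log N ≤ 3 * ll 1 s := by rw [hll]; linarith
  have hs1 : 1 ≤ ‖s - 1‖ := by
    refine h3.trans ?_
    have := Complex.abs_im_le_norm (s - 1)
    simpa using this
  have h4 := hA s h1 N hN1
  have h5 := hK s hs1 N hN1'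
  have h6 : Real.exp (-((s.re - 1) * Real.log N)) ≤ 1 := by
    apply Real.exp_le_one_iff.2
    have : 0 ≤ (s.re - 1) * Real.log N := mul_nonneg (by linarith) hlN
    linarith
  have h7 : ‖h99_F s j N‖ ≤ K * 3 ^ j * ll 1 s ^ (j + 1) := by
    calc ‖h99_F s j N‖ ≤ K * (1 + Real.log N) ^ j * 1 := by
          refine h5.trans ?_
          gcongr
      _ ≤ K * (3 * ll 1 s) ^ j * 1 := by gcongr
      _ = K * 3 ^ j * ll 1 s ^ j := by rw [mul_pow]; ring
      _ ≤ K * 3 ^ j * ll 1 s ^ (j + 1) := by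
          gcongr
          omega
  have h8 : (1 + Real.log N) ^ (j + 1) ≤ 3 ^ (j + 1) * ll 1 s ^ (j + 1) := by
    rw [← mul_pow]
    gcongr
  have h9 := err_le (j := j) hA0 h1 h2 hN2
  have h10 : 4 * A * (j + 1) ≤ 4 * A * (j + 1) * ll 1 s ^ (j + 1) := by
    have : 1 ≤ ll 1 s ^ (j + 1) := one_le_pow₀ hll1
    have h11 : 0 ≤ 4 * A * ((j : ℝ) + 1) := by positivity
    nlinarith
  calc ‖ZZ j s‖ ≤ 3 ^ (j + 1) * ll 1 s ^ (j + 1) + K * 3 ^ j * ll 1 s ^ (j + 1) +
        4 * A * (j + 1) * ll 1 s ^ (j + 1) := by linarith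
    _ = _ := by ring

lemma h99_ZZ_zero {s : ℂ} (h1 : 1 < s.re) : ZZ 0 s = riemannZeta s := by
  rw [← LSeries_one_eq_riemannZeta h1, ZZ]
  simp only [pow_zero]
  rfl

/-- sw:2 -/
theorem zeta_near : ∃ C : ℝ, 0 < C ∧ ∀ s : ℂ, 1 < s.re → s.re ≤ 2 →
    ‖riemannZeta s‖ ≤ C * (1 / ‖s - 1‖ + Real.log (2 + |s.im|)) := by
  obtain ⟨A, hA0, hA⟩ := h99_ZZ_main 0
  have hl2 : 0 < Real.log 2 := Real.log_pos (by norm_num)
  refine ⟨(1 + 4 * A) / Real.log 2 + 4, by positivity, fun s h1 h2 => ?_⟩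
  obtain ⟨N, hN1, hN2, hN3⟩ := choose_N s.im
  have hN1' : (1 : ℝ) ≤ N := by exact_mod_cast hN1
  have hlN : 0 ≤ Real.log N := Real.log_nonneg hN1'
  have hL : Real.log 2 ≤ Real.log (2 + |s.im|) :=
    Real.log_le_log (by norm_num) (by linarith [abs_nonneg s.im])
  have hs : s ≠ 1 := by
    rintro rfl
    simp at h1
  have hs0 : 0 < ‖s - 1‖ := norm_pos_iff.2 (sub_ne_zero.2 hs)
  have h4 := hA s h1 N hN1
  rw [h99_ZZ_zero h1, zero_add, pow_one] at h4
  have h9 := err_le (j := 0) hA0 h1 h2 hN2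
  have h6 : Real.exp (-((s.re - 1) * Real.log N)) ≤ 1 := by
    apply Real.exp_le_one_iff.2
    have : 0 ≤ (s.re - 1) * Real.log N := mul_nonneg (by linarith) hlN
    linarith
  have h7 : ‖h99_F s 0 N‖ ≤ 1 / ‖s - 1‖ := by
    rw [h99_F, norm_div, exp_norm, norm_sub_rev]
    gcongr
  have h8 : (1 + 4 * A) ≤ (1 + 4 * A) / Real.log 2 * Real.log (2 + |s.im|) := by
    rw [div_mul_eq_mul_div, le_div_iff₀ hl2]
    gcongr
  have h10 : 0 ≤ (1 + 4 * A) / Real.log 2 * (1 / ‖s - 1‖) := by positivity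
  have h11 : 0 ≤ 1 / ‖s - 1‖ := by positivity
  push_cast at h9 h4
  rw [zero_add] at h9 h4
  calc ‖riemannZeta s‖ ≤ (1 + 3 * Real.log (2 + |s.im|)) + 1 / ‖s - 1‖ + 4 * A := by linarith
    _ ≤ ((1 + 4 * A) / Real.log 2 + 4) * (1 / ‖s - 1‖ + Real.log (2 + |s.im|)) := by
        rw [add_mul, mul_add, mul_add]
        linarith

end Pool.Agent.helper74.TG
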