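import Pool.Agent.helper99.TG.SW2

/-!
# GNU project, module sw:3d: a lower bound for the zeta function to the right of `Re s = 1`
-/

namespace Pool.Agent.helper74.TG

open Finset ArithmeticFunction

lemma h99_zeta_deriv {s : ℂ} (h : 1 < s.re) : HasDerivAt riemannZeta (-ZZ 1 s) s := by
  have h1 : HasDerivAt (LSeries 1) (-LSeries (LSeries.logMul 1) s) s := by
    apply LSeries_hasDerivAt
    rw [LSeries.abscissaOfAbsConv_one]
    exact_mod_cast h
  have h2 : LSeries (LSeries.logMul 1) s = ZZ 1 s := by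
    rw [ZZ]
    apply LSeries_congr
    intro n hn
    simp [LSeries.logMul, Complex.natCast_log]
  rw [h2] at h1
  refine h1.congr_of_eventuallyEq ?_
  have hopen : IsOpen {z : ℂ | 1 < z.re} := isOpen_lt continuous_const Complex.continuous_re
  filter_upwards [hopen.mem_nhds h] with z hz
  exact (LSeries_one_eq_riemannZeta hz).symm

private lemma ll_one (s : ℂ) : ll 1 s = 1 + Real.log (2 + |s.im|) := by simp [ll]

private lemma prod_ge (x : ℝ) (hx : 0 < x) (t : ℝ) :
    1 ≤ ‖riemannZeta (1 + x)‖ ^ 3 * ‖riemannZeta (1 + x + Complex.I * t)‖ ^ 4 *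
      ‖riemannZeta (1 + x + 2 * Complex.I * t)‖ := by
  have h := DirichletCharacter.norm_LSeries_product_ge_one (1 : DirichletCharacter ℂ 1) hx t
  rw [one_pow] at h
  simp only [norm_mul, norm_pow] at h
  have e : ∀ s : ℂ, 1 < s.re →
      LSeries (fun n : ℕ => ((1 : DirichletCharacter ℂ 1) n : ℂ)) s = riemannZeta s := by
    intro s hs
    rw [← LSeries_one_eq_riemannZeta hs]
    exact congrFun DirichletCharacter.LSeries_modOne_eq s
  rw [e _ (by simpa using hx), e _ (by simpa using hx), e _ (by simpa using hx)] at h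
  exact h

/-- sw:3d: zeta. -/
theorem zeta_lower_t : ∃ c : ℝ, 0 < c ∧ ∀ s : ℂ, 1 < s.re → s.re ≤ 2 → 1 ≤ |s.im| →
    c / ll 1 s ^ 7 ≤ ‖riemannZeta s‖ := by
  obtain ⟨C₀', hC₀', h₀⟩ := zeta_near
  obtain ⟨C₁', hC₁', h₁⟩ := ZZ_bound_t 0
  obtain ⟨C₂', hC₂', h₂⟩ := ZZ_bound_t 1
  set C₀ := max C₀' 1 with hC₀def
  set C₁ := max C₁' 1 with hC₁def
  set C₂ := max C₂' 1 with hC₂def
  have hC₀ : 1 ≤ C₀ := le_max_right _ _
  have hC₁ : 1 ≤ C₁ := le_max_right _ _
  have hC₂ : 1 ≤ C₂ := le_max_right _ _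
  have hC₀0 : 0 < C₀ := by linarith
  have hC₁0 : 0 < C₁ := by linarith
  have hC₂0 : 0 < C₂ := by linarith
  set c₀ := 1 / (256 * C₀ ^ 3 * C₁ * C₂ ^ 4) with hc₀
  have hc₀0 : 0 < c₀ := by positivity
  have hc₀1 : c₀ ≤ 1 := by
    rw [hc₀, div_le_one (by positivity)]
    have h1 : 1 ≤ C₂ ^ 4 := one_le_pow₀ hC₂
    have h2 : 1 ≤ C₀ ^ 3 := one_le_pow₀ hC₀
    have h3 : 1 ≤ C₀ ^ 3 * C₁ := one_le_mul_of_one_le_of_one_le h2 hC₁
    have h4 : 1 ≤ C₀ ^ 3 * C₁ * C₂ ^ 4 := one_le_mul_of_one_le_of_one_le h3 h1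
    linarith
  refine ⟨c₀, hc₀0, fun s hs1 hs2 hs3 => ?_⟩
  set ℓ := ll 1 s with hℓ
  have hℓ' : ℓ = 1 + Real.log (2 + |s.im|) := ll_one s
  have hℓ1 : 1 ≤ ℓ := by
    have : 0 ≤ Real.log (2 + |s.im|) := Real.log_nonneg (by linarith)
    linarith
  have hℓ0 : 0 < ℓ := by linarith
  set x₀ := c₀ / ℓ ^ 9 with hx₀
  have hx₀0 : 0 < x₀ := by positivity
  have hx₀1 : x₀ ≤ 1 := by
    rw [hx₀, div_le_one (by positivity)]
    exact hc₀1.trans (one_le_pow₀ hℓ1)
  -- lower bound for `x ≥ x₀`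
  have hlow : ∀ x : ℝ, x₀ ≤ x → x ≤ 1 →
      2 * C₂ * c₀ / ℓ ^ 7 ≤ ‖riemannZeta (1 + x + Complex.I * s.im)‖ := by
    intro x hx hx1
    have hx0 : 0 < x := hx₀0.trans_le hx
    have hprod := prod_ge x hx0 s.im
    have ha : ‖riemannZeta (1 + x)‖ ≤ 2 * C₀ / x₀ := by
      have h := h₀ (1 + x) (by simpa using hx0) (by simp; linarith)
      have e1 : (1 + (x : ℂ)) - 1 = x := by ring
      rw [e1, Complex.norm_real, Real.norm_of_nonneg hx0.le] at h
      have e2 : (1 + (x : ℂ)).im = 0 := by simp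
      rw [e2, abs_zero, add_zero] at h
      refine h.trans ?_
      have h5 : Real.log 2 ≤ 1 := by
        have := Real.log_two_lt_d9
        linarith
      have h6 : 1 / x ≤ 1 / x₀ := one_div_le_one_div_of_le hx₀0 hx
      have h7 : 1 ≤ 1 / x₀ := by rw [le_div_iff₀ hx₀0]; linarith
      have h8 : C₀' ≤ C₀ := le_max_left _ _
      have h9 : 0 < 1 / x := by positivity
      have h10 : 0 < Real.log 2 := Real.log_pos (by norm_num)
      calc C₀' * (1 / x + Real.log 2) ≤ C₀ * (1 / x₀ + 1 / x₀) := by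
            apply mul_le_mul h8 (by linarith) (by positivity) hC₀0.le
        _ = _ := by ring
    have hb : ‖riemannZeta (1 + x + 2 * Complex.I * s.im)‖ ≤ 2 * C₁ * ℓ := by
      have e3 : (1 + (x : ℂ) + 2 * Complex.I * s.im).re = 1 + x := by simp
      have e4 : (1 + (x : ℂ) + 2 * Complex.I * s.im).im = 2 * s.im := by simp
      have h := h₁ (1 + x + 2 * Complex.I * s.im) (by rw [e3]; linarith) (by rw [e3]; linarith)
        (by rw [e4, abs_mul, abs_two]; linarith)
      rw [h99_ZZ_zero (by rw [e3]; linarith), zero_add, pow_one, ll_one, e4, abs_mul, abs_two] at h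
      refine h.trans ?_
      have h5 : Real.log (2 + 2 * |s.im|) ≤ 1 + Real.log (2 + |s.im|) := by
        calc Real.log (2 + 2 * |s.im|) ≤ Real.log (2 * (2 + |s.im|)) :=
              Real.log_le_log (by linarith) (by linarith)
          _ = Real.log 2 + Real.log (2 + |s.im|) := Real.log_mul (by norm_num) (by linarith)
          _ ≤ _ := by
              have := Real.log_two_lt_d9
              linarith
      have h6 : 1 + Real.log (2 + 2 * |s.im|) ≤ 2 * ℓ := by linarith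
      have h7 : 0 ≤ Real.log (2 + 2 * |s.im|) := Real.log_nonneg (by linarith)
      calc C₁' * (1 + Real.log (2 + 2 * |s.im|)) ≤ C₁ * (2 * ℓ) :=
            mul_le_mul (le_max_left _ _) h6 (by linarith) hC₁0.le
        _ = _ := by ring
    set y := ‖riemannZeta (1 + x + Complex.I * s.im)‖ with hy
    have hy0 : 0 ≤ y := norm_nonneg _
    by_contra hcon
    push Not at hcon
    have h4 : y ^ 4 < (2 * C₂ * c₀ / ℓ ^ 7) ^ 4 := pow_lt_pow_left₀ hcon hy0 (by norm_num)
    have h5 : ‖riemannZeta (1 + x)‖ ^ 3 ≤ (2 * C₀ / x₀) ^ 3 :=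
      pow_le_pow_left₀ (norm_nonneg _) ha 3
    have h3 : ‖riemannZeta (1 + x)‖ ^ 3 * y ^ 4 * ‖riemannZeta (1 + x + 2 * Complex.I * s.im)‖
        < (2 * C₀ / x₀) ^ 3 * (2 * C₂ * c₀ / ℓ ^ 7) ^ 4 * (2 * C₁ * ℓ) := by
      calc _ ≤ (2 * C₀ / x₀) ^ 3 * y ^ 4 * (2 * C₁ * ℓ) := by
            apply mul_le_mul _ hb (norm_nonneg _) (by positivity)
            exact mul_le_mul_of_nonneg_right h5 (by positivity)
        _ < _ := by
            apply mul_lt_mul_of_pos_right _ (by positivity)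
            exact mul_lt_mul_of_pos_left h4 (by positivity)
    have h6 : (2 * C₀ / x₀) ^ 3 * (2 * C₂ * c₀ / ℓ ^ 7) ^ 4 * (2 * C₁ * ℓ) = 1 := by
      rw [hx₀, hc₀]
      field_simp
      norm_num
    rw [h6] at h3
    exact absurd hprod (not_le.2 h3)
  have h8 : c₀ / ℓ ^ 7 ≤ C₂ * c₀ / ℓ ^ 7 := by
    apply div_le_div_of_nonneg_right _ (by positivity)
    nlinarith
  have h9 : 2 * C₂ * c₀ / ℓ ^ 7 = C₂ * c₀ / ℓ ^ 7 + C₂ * c₀ / ℓ ^ 7 := by ring
  have h10 : 0 < c₀ / ℓ ^ 7 := by positivity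
  set x := s.re - 1 with hx
  have hsx : s = 1 + x + Complex.I * s.im := by
    apply Complex.ext
    · simp [hx]
    · simp
  rcases le_total x₀ x with hcase | hcase
  · have h := hlow x hcase (by linarith)
    rw [← hsx] at h
    linarith
  · have hl := hlow x₀ le_rfl hx₀1
    have hlip := norm_image_sub_le_of_norm_deriv_le_segment' (a := x) (b := x₀)
      (f := fun u : ℝ => riemannZeta (1 + u + Complex.I * s.im))
      (f' := fun u : ℝ => -ZZ 1 (1 + u + Complex.I * s.im) * 1)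
      (C := C₂ * ℓ ^ 2)
      (fun u hu => by
        have hu0 : 0 < u := by linarith [hu.1]
        have h1 : HasDerivAt (fun u : ℝ => (1 + (u : ℂ) + Complex.I * s.im)) 1 u :=
          (((hasDerivAt_id u).ofReal_comp).const_add 1).add_const _
        have h2 := h99_zeta_deriv (s := 1 + (u : ℂ) + Complex.I * s.im) (by simpa using hu0)
        exact (h2.comp u h1).hasDerivWithinAt)
      (fun u hu => by
        have hu0 : 0 < u := by linarith [hu.1]
        have e3 : (1 + (u : ℂ) + Complex.I * s.im).re = 1 + u := by simp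
        have e4 : (1 + (u : ℂ) + Complex.I * s.im).im = s.im := by simp
        have h := h₂ (1 + u + Complex.I * s.im) (by rw [e3]; linarith)
          (by rw [e3]; linarith [hu.2]) (by rw [e4]; exact hs3)
        rw [ll_one, e4, ← hℓ'] at h
        rw [mul_one, norm_neg]
        refine h.trans ?_
        exact mul_le_mul_of_nonneg_right (le_max_left _ _) (by positivity)) x₀ ⟨hcase, le_rfl⟩
    have h11 : C₂ * ℓ ^ 2 * (x₀ - x) ≤ C₂ * c₀ / ℓ ^ 7 := by
      calc C₂ * ℓ ^ 2 * (x₀ - x) ≤ C₂ * ℓ ^ 2 * x₀ := by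
            have hx0 : 0 ≤ x := by linarith
            gcongr
            linarith
        _ = _ := by rw [hx₀]; field_simp
    rw [← hsx] at hlip
    have h12 := norm_sub_norm_le (riemannZeta (1 + x₀ + Complex.I * s.im)) (riemannZeta s)
    linarith

end Pool.Agent.helper74.TG
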