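import Pool.Agent.helper74.TG.Defs

/-!
# GNU project, module sw:4a: bounds for `L(s, χ)` in a disc around `2`
-/

namespace Pool.Agent.helper74.TG

open Finset ArithmeticFunction

/-- `(n + 1)^(-s)` -/
noncomputable def h99_a (s : ℂ) (n : ℕ) : ℂ := Complex.exp (-s * (Real.log ((n : ℝ) + 1) : ℂ))

private lemma sum_zmod {q : ℕ} [NeZero q] {M : Type*} [AddCommMonoid M] (g : ℕ → M) :
    ∑ r : ZMod q, g r.val = ∑ n ∈ range q, g n := by
  obtain _ | k := q
  · exact absurd rfl (NeZero.ne 0)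
  · exact Fin.sum_univ_eq_sum_range g (k + 1)

private lemma sum_period {q : ℕ} [NeZero q] {χ : DirichletCharacter ℂ q} (hχ : χ ≠ 1) :
    ∑ n ∈ range q, χ n = 0 := by
  rw [← sum_zmod (q := q) (fun n => χ n), ← MulChar.sum_eq_zero_of_ne_one hχ]
  refine sum_congr rfl fun r _ => ?_
  simp

private lemma sum_mul_period {q : ℕ} [NeZero q] {χ : DirichletCharacter ℂ q} (hχ : χ ≠ 1) (m : ℕ) :
    ∑ n ∈ range (q * m), χ n = 0 := by
  induction m with
  | zero => simp
  | succ m ih =>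
    rw [mul_add, mul_one, sum_range_add, ih, zero_add, ← sum_period hχ]
    refine sum_congr rfl fun r _ => ?_
    simp

/-- Partial sums of a nonprincipal character. -/
lemma h99_char_sum_le {q : ℕ} [NeZero q] {χ : DirichletCharacter ℂ q} (hχ : χ ≠ 1) (N : ℕ) :
    ‖∑ n ∈ range N, χ n‖ ≤ q := by
  have hq : 0 < q := Nat.pos_of_ne_zero (NeZero.ne q)
  conv_lhs => rw [← Nat.div_add_mod N q]
  rw [sum_range_add, sum_mul_period hχ, zero_add]
  refine (norm_sum_le_of_le (f := fun x => χ ((q * (N / q) + x : ℕ) : ZMod q))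
    (range (N % q)) (n := fun _ => (1 : ℝ)) fun n _ => χ.norm_le_one _).trans ?_
  rw [sum_const, card_range, nsmul_eq_mul, mul_one]
  exact_mod_cast (Nat.mod_lt N hq).le

private lemma B_le {q : ℕ} [NeZero q] {χ : DirichletCharacter ℂ q} (hχ : χ ≠ 1) (N : ℕ) :
    ‖∑ n ∈ range N, χ ((n + 1 : ℕ) : ZMod q)‖ ≤ 2 * q := by
  have hq : 0 < q := Nat.pos_of_ne_zero (NeZero.ne q)
  have hq1 : (1 : ℝ) ≤ q := by exact_mod_cast hq
  have h1 := sum_range_succ' (fun n : ℕ => χ (n : ZMod q)) N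
  have h2 : ∑ n ∈ range N, χ ((n + 1 : ℕ) : ZMod q) =
      ∑ n ∈ range (N + 1), χ (n : ZMod q) - χ ((0 : ℕ) : ZMod q) := by
    rw [h1]; ring
  rw [h2]
  refine (norm_sub_le _ _).trans ?_
  have := h99_char_sum_le hχ (N + 1)
  have := χ.norm_le_one ((0 : ℕ) : ZMod q)
  linarith

private lemma abel (b a : ℕ → ℂ) (N : ℕ) :
    ∑ n ∈ range N, b n * a n = (∑ n ∈ range N, b n) * a N +
      ∑ n ∈ range N, (∑ m ∈ range (n + 1), b m) * (a n - a (n + 1)) := by
  induction N with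
  | zero => simp
  | succ N ih =>
    have h1 : ∑ n ∈ range (N + 1), b n = ∑ n ∈ range N, b n + b N := sum_range_succ _ _
    rw [sum_range_succ, ih, sum_range_succ (fun n => (∑ m ∈ range (n + 1), b m) *
      (a n - a (n + 1))), h1]
    ring

private lemma a_diff {s : ℂ} (hs : s ∈ Metric.ball (2 : ℂ) (7 / 4)) (n : ℕ) :
    ‖h99_a s n - h99_a s (n + 1)‖ ≤ 4 / ((n : ℝ) + 1) ^ (5 / 4 : ℝ) := by
  rw [Metric.mem_ball, dist_eq_norm] at hs
  have hre : 1 / 4 < s.re := by
    have h1 := (abs_le.1 (Complex.abs_re_le_norm (s - 2))).1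
    have h2 : (s - 2).re = s.re - 2 := by simp
    rw [h2] at h1
    linarith
  have hn4 : ‖s‖ ≤ 4 := by
    have h1 := norm_add_le (s - 2) 2
    rw [sub_add_cancel] at h1
    have h2 : ‖(2 : ℂ)‖ = 2 := by simp
    linarith
  have hn0 : (0 : ℝ) ≤ n := Nat.cast_nonneg n
  set a : ℝ := (n : ℝ) + 1 with ha
  have ha1 : 1 ≤ a := by linarith
  have h := norm_image_sub_le_of_norm_deriv_le_segment' (a := a) (b := a + 1)
    (f := fun u : ℝ => Complex.exp (-s * (Real.log u : ℂ)))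
    (f' := fun u : ℝ => Complex.exp (-s * (Real.log u : ℂ)) * (-s * ((u⁻¹ : ℝ) : ℂ)))
    (C := 4 / a ^ (5 / 4 : ℝ))
    (fun y hy => by
      have hy0 : 0 < y := by linarith [hy.1]
      have h1 : HasDerivAt (fun y : ℝ => (Real.log y : ℂ)) ((y⁻¹ : ℝ) : ℂ) y :=
        (Real.hasDerivAt_log hy0.ne').ofReal_comp
      exact ((h1.const_mul (-s)).cexp).hasDerivWithinAt)
    (fun y hy => by
      have hy0 : 0 < y := by linarith [hy.1]
      have hy1 : 1 ≤ y := ha1.trans hy.1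
      have hlog : 0 ≤ Real.log y := Real.log_nonneg hy1
      have hexp : ‖Complex.exp (-s * (Real.log y : ℂ))‖ ≤ y ^ (-(1 / 4) : ℝ) := by
        rw [Complex.norm_exp, Real.rpow_def_of_pos hy0]
        apply Real.exp_le_exp.2
        rw [Complex.mul_re, Complex.ofReal_re, Complex.ofReal_im, Complex.neg_re]
        nlinarith
      rw [norm_mul, norm_mul, norm_neg, Complex.norm_real,
        Real.norm_of_nonneg (by positivity : 0 ≤ y⁻¹)]
      calc ‖Complex.exp (-s * (Real.log y : ℂ))‖ * (‖s‖ * y⁻¹) ≤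
            y ^ (-(1 / 4) : ℝ) * (4 * y⁻¹) := by gcongr
        _ = 4 / y ^ (5 / 4 : ℝ) := by
            rw [← Real.rpow_neg_one y, div_eq_mul_inv 4, ← Real.rpow_neg hy0.le]
            rw [show (-(5 / 4) : ℝ) = -(1 / 4) + -1 by norm_num, Real.rpow_add hy0]
            ring
        _ ≤ _ := by
            have := hy.1
            gcongr)
    (a + 1) ⟨by linarith, le_rfl⟩
  rw [add_sub_cancel_left, mul_one] at h
  rw [norm_sub_rev]
  have e1 : h99_a s (n + 1) = Complex.exp (-s * (Real.log (a + 1) : ℂ)) := by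
    rw [h99_a, ha]; push_cast; rfl
  rw [e1, h99_a]
  exact h

private lemma summable_54 : Summable fun n : ℕ => 4 / ((n : ℝ) + 1) ^ (5 / 4 : ℝ) := by
  have h := Real.summable_one_div_nat_rpow.2 (show (1 : ℝ) < 5 / 4 by norm_num)
  have h2 := ((summable_nat_add_iff 1).2 h).mul_left 4
  refine h2.congr fun n => ?_
  push_cast
  ring

/-- The continuation of the `L` series by partial summation. -/
noncomputable def h99_G {q : ℕ} (χ : DirichletCharacter ℂ q) (s : ℂ) : ℂ :=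
  ∑' n : ℕ, (∑ m ∈ range (n + 1), χ ((m + 1 : ℕ) : ZMod q)) * (h99_a s n - h99_a s (n + 1))

private lemma G_term {q : ℕ} [NeZero q] {χ : DirichletCharacter ℂ q} (hχ : χ ≠ 1) (n : ℕ) {s : ℂ}
    (hs : s ∈ Metric.ball (2 : ℂ) (7 / 4)) :
    ‖(∑ m ∈ range (n + 1), χ ((m + 1 : ℕ) : ZMod q)) * (h99_a s n - h99_a s (n + 1))‖ ≤
      2 * q * (4 / ((n : ℝ) + 1) ^ (5 / 4 : ℝ)) := by
  rw [norm_mul]
  exact mul_le_mul (B_le hχ _) (a_diff hs n) (norm_nonneg _) (by positivity)

private lemma G_diff {q : ℕ} [NeZero q] {χ : DirichletCharacter ℂ q} (hχ : χ ≠ 1) :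
    DifferentiableOn ℂ (h99_G χ) (Metric.ball (2 : ℂ) (7 / 4)) := by
  refine Complex.differentiableOn_tsum_of_summable_norm (u := fun n : ℕ =>
    2 * (q : ℝ) * (4 / ((n : ℝ) + 1) ^ (5 / 4 : ℝ))) (summable_54.mul_left _) ?_
    Metric.isOpen_ball (fun n s hs => G_term hχ n hs)
  intro n
  apply Differentiable.differentiableOn
  have : Differentiable ℂ fun s : ℂ => h99_a s n := by
    unfold h99_a
    fun_prop
  have h2 : Differentiable ℂ fun s : ℂ => h99_a s (n + 1) := by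
    unfold h99_a
    fun_prop
  exact (this.sub h2).const_mul _

private lemma a_term {q : ℕ} (χ : DirichletCharacter ℂ q) (s : ℂ) (n : ℕ) :
    LSeries.term (fun n => χ n) s (n + 1) = χ ((n + 1 : ℕ) : ZMod q) * h99_a s n := by
  have hn' : ((n + 1 : ℕ) : ℂ) ≠ 0 := by exact_mod_cast Nat.succ_ne_zero n
  rw [LSeries.term_of_ne_zero (Nat.succ_ne_zero n), h99_a, Complex.cpow_def_of_ne_zero hn',
    ← Complex.natCast_log, div_eq_mul_inv, ← Complex.exp_neg]
  congr 2
  push_cast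
  ring

private lemma G_eq {q : ℕ} [NeZero q] {χ : DirichletCharacter ℂ q} (hχ : χ ≠ 1) {s : ℂ}
    (hs : s ∈ Metric.ball (2 : ℂ) (7 / 4)) (h1 : 1 < s.re) :
    h99_G χ s = DirichletCharacter.LFunction χ s := by
  rw [DirichletCharacter.LFunction_eq_LSeries χ h1]
  have hsum : LSeriesSummable (fun n => χ n) s :=
    ZMod.LSeriesSummable_of_one_lt_re χ h1
  have ht := hsum.hasSum.tendsto_sum_nat
  have ht1 := (Filter.tendsto_add_atTop_iff_nat 1).2 ht
  have e : ∀ N : ℕ, ∑ i ∈ range (N + 1), LSeries.term (fun n => χ n) s i =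
      (∑ n ∈ range N, χ ((n + 1 : ℕ) : ZMod q)) * h99_a s N +
      ∑ n ∈ range N, (∑ m ∈ range (n + 1), χ ((m + 1 : ℕ) : ZMod q)) *
        (h99_a s n - h99_a s (n + 1)) := by
    intro N
    rw [sum_range_succ', LSeries.term_zero, add_zero, ← abel]
    exact sum_congr rfl fun n _ => a_term χ s n
  simp_rw [e] at ht1
  have hG : Summable fun n : ℕ => (∑ m ∈ range (n + 1), χ ((m + 1 : ℕ) : ZMod q)) *
      (h99_a s n - h99_a s (n + 1)) :=
    Summable.of_norm_bounded (summable_54.mul_left (2 * (q : ℝ))) fun n => G_term hχ n hs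
  have ht2 := hG.hasSum.tendsto_sum_nat
  have ha : Filter.Tendsto (fun N : ℕ => ‖h99_a s N‖) Filter.atTop (nhds 0) := by
    have e3 : ∀ N : ℕ, ‖h99_a s N‖ = ((N : ℝ) + 1) ^ (-s.re) := by
      intro N
      have hN : (0 : ℝ) < (N : ℝ) + 1 := by positivity
      rw [h99_a, Complex.norm_exp, Real.rpow_def_of_pos hN, Complex.mul_re, Complex.ofReal_re,
        Complex.ofReal_im, Complex.neg_re]
      congr 1
      ring
    simp_rw [e3]
    exact (tendsto_rpow_neg_atTop (by linarith)).comp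
      (Filter.tendsto_atTop_add_const_right _ 1 tendsto_natCast_atTop_atTop)
  have hB : Filter.Tendsto (fun N : ℕ => (∑ n ∈ range N, χ ((n + 1 : ℕ) : ZMod q)) * h99_a s N)
      Filter.atTop (nhds 0) := by
    have h5 := ha.const_mul (2 * (q : ℝ))
    rw [mul_zero] at h5
    refine squeeze_zero_norm (fun N => ?_) h5
    rw [norm_mul]
    exact mul_le_mul_of_nonneg_right (B_le hχ N) (norm_nonneg _)
  have ht3 := hB.add ht2
  rw [zero_add] at ht3
  exact tendsto_nhds_unique ht3 ht1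

private lemma L_bound {q : ℕ} [NeZero q] {χ : DirichletCharacter ℂ q} (hχ : χ ≠ 1) {s : ℂ}
    (hs : s ∈ Metric.ball (2 : ℂ) (7 / 4)) :
    ‖DirichletCharacter.LFunction χ s‖ ≤ 2 * q * ∑' n : ℕ, 4 / ((n : ℝ) + 1) ^ (5 / 4 : ℝ) := by
  have hG : AnalyticOnNhd ℂ (h99_G χ) (Metric.ball (2 : ℂ) (7 / 4)) :=
    (G_diff hχ).analyticOnNhd Metric.isOpen_ball
  have hL : AnalyticOnNhd ℂ (DirichletCharacter.LFunction χ) (Metric.ball (2 : ℂ) (7 / 4)) :=
    (DirichletCharacter.differentiable_LFunction hχ).differentiableOn.analyticOnNhd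
      Metric.isOpen_ball
  have h2 : (2 : ℂ) ∈ Metric.ball (2 : ℂ) (7 / 4) := Metric.mem_ball_self (by norm_num)
  have hev : h99_G χ =ᶠ[nhds 2] DirichletCharacter.LFunction χ := by
    have hopen : IsOpen {z : ℂ | 1 < z.re} := isOpen_lt continuous_const Complex.continuous_re
    filter_upwards [hopen.mem_nhds (by simp : (2 : ℂ) ∈ {z : ℂ | 1 < z.re}),
      Metric.isOpen_ball.mem_nhds h2] with z hz hz2
    exact G_eq hχ hz2 hz
  have heq := hG.eqOn_of_preconnected_of_eventuallyEq hL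
    (convex_ball (2 : ℂ) (7 / 4)).isPreconnected h2 hev
  rw [← heq hs, h99_G, ← tsum_mul_left]
  exact tsum_of_norm_bounded (summable_54.mul_left (2 * (q : ℝ))).hasSum fun n => G_term hχ n hs

private lemma zeta_bound : ∃ C : ℝ, 0 < C ∧ ∀ s : ℂ, ‖s - 2‖ ≤ 3 / 2 →
    ‖(s - 1) * riemannZeta s‖ ≤ C := by
  set g : ℂ → ℂ := Function.update (fun s => (s - 1) * riemannZeta s) 1 1 with hg
  have hc : Continuous g := by
    rw [continuous_iff_continuousAt]
    intro s
    rcases eq_or_ne s 1 with rfl | hs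
    · rw [hg, continuousAt_update_same]
      exact riemannZeta_residue_one
    · have h1 : g =ᶠ[nhds s] fun s => (s - 1) * riemannZeta s := by
        filter_upwards [isOpen_ne.mem_nhds hs] with z hz
        rw [hg, Function.update_of_ne hz]
      have h2 : ContinuousAt (fun s => (s - 1) * riemannZeta s) s :=
        (continuousAt_id.sub continuousAt_const).mul (differentiableAt_riemannZeta hs).continuousAt
      exact h2.congr h1.symm
  obtain ⟨C, hC⟩ := (isCompact_closedBall (2 : ℂ) (3 / 2)).exists_bound_of_continuousOn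
    hc.continuousOn
  refine ⟨max C 1, by positivity, fun s hs => ?_⟩
  rcases eq_or_ne s 1 with rfl | hs1
  · simp
  · have h := hC s (by rw [Metric.mem_closedBall, dist_eq_norm]; exact hs)
    rw [hg, Function.update_of_ne hs1] at h
    exact h.trans (le_max_left _ _)

/-- sw:4a: bounds for the continuation in a disc around `2`. -/
theorem LF_disc : ∃ C : ℝ, 0 < C ∧
    (∀ (q : ℕ) [NeZero q], 2 ≤ q → ∀ χ : DirichletCharacter ℂ q, χ ≠ 1 → ∀ s : ℂ, ‖s - 2‖ ≤ 3 / 2 →
      ‖DirichletCharacter.LFunction χ s‖ ≤ C * q) ∧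
    (∀ s : ℂ, ‖s - 2‖ ≤ 3 / 2 → ‖(s - 1) * riemannZeta s‖ ≤ C) := by
  obtain ⟨C, hC0, hC⟩ := zeta_bound
  set Z := ∑' n : ℕ, 4 / ((n : ℝ) + 1) ^ (5 / 4 : ℝ) with hZ
  have hZ0 : 0 ≤ Z := tsum_nonneg fun n => by positivity
  refine ⟨C + 2 * Z, by positivity, ?_, fun s hs => (hC s hs).trans (by linarith)⟩
  intro q _ hq χ hχ s hs
  have h := L_bound hχ (s := s) (by
    rw [Metric.mem_ball, dist_eq_norm]
    linarith)
  refine h.trans ?_
  have hq0 : (0 : ℝ) ≤ q := Nat.cast_nonneg q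
  nlinarith

end Pool.Agent.helper74.TG
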