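import Pool.Agent.helper43.TG.Spec

set_option autoImplicit false

namespace Pool.Agent.helper43.TG

lemma COL_claim (h : STP) {V : Type} [Fintype V] [DecidableEq V] (G : SimpleGraph V) [DecidableRel G.Adj]
    (k hh : ℕ) (Δ l b : ℝ) (hk : 1 ≤ k) (hl : 0 < l)
    (hdeg : ∀ v, ((Finset.univ.filter (fun u => G.Adj v u)).card : ℝ) ≤ Δ)
    (hB : ∀ v, ((Finset.univ.filter (fun u => G.Adj v u ∧
      hh < (Finset.univ.filter (fun y => G.Adj v y ∧ G.Adj u y)).card)).card : ℝ) ≤ b)
    (hnum : l ≤ (k : ℝ) * Real.exp (-(2 * Δ) / k) - b - Δ * (3 * hh + 2) / l) :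
    ∀ (m : ℕ) (W : Finset V), W.card = m → ∀ v ∈ W,
      l * ((prop G k (W.erase v)).card : ℝ) ≤ (k : ℝ) * ((prop G k W).card : ℝ) := by
  intro m
  induction m using Nat.strong_induction_on with
  | _ m ih =>
    intro W hW v hv
    have hU := h V G k hh (W.erase v)
      ((W.erase v).filter (fun u => G.Adj v u ∧
        ¬ hh < (Finset.univ.filter (fun y => G.Adj v y ∧ G.Adj u y)).card))
      ((W.erase v).filter (fun u => G.Adj v u ∧
        hh < (Finset.univ.filter (fun y => G.Adj v y ∧ G.Adj u y)).card)) v Δ l hk hl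
      (Finset.notMem_erase v W) (Finset.filter_subset _ _) ?_ ?_ ?_ ?_
    · rw [Finset.insert_erase hv] at hU
      refine le_trans ?_ hU
      have h1 : (((W.erase v).filter (fun u => G.Adj v u ∧
          hh < (Finset.univ.filter (fun y => G.Adj v y ∧ G.Adj u y)).card)).card : ℝ) ≤ b := by
        refine le_trans ?_ (hB v)
        exact_mod_cast Finset.card_le_card (Finset.filter_subset_filter _ (Finset.subset_univ _))
      rw [mul_comm]
      refine mul_le_mul_of_nonneg_left ?_ (Nat.cast_nonneg _)
      linarith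
    · intro y hy hvy
      by_cases hc : hh < (Finset.univ.filter (fun z => G.Adj v z ∧ G.Adj y z)).card
      · exact Or.inr (Finset.mem_filter.2 ⟨hy, hvy, hc⟩)
      · exact Or.inl (Finset.mem_filter.2 ⟨hy, hvy, hc⟩)
    · refine le_trans ?_ (hdeg v)
      have hsub : (W.erase v).filter (fun u => G.Adj v u ∧
          ¬ hh < (Finset.univ.filter (fun y => G.Adj v y ∧ G.Adj u y)).card) ⊆
          Finset.univ.filter (fun u => G.Adj v u) := by
        intro u hu
        rw [Finset.mem_filter] at hu
        exact Finset.mem_filter.2 ⟨Finset.mem_univ _, hu.2.1⟩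
      exact_mod_cast Finset.card_le_card hsub
    · intro u hu
      rw [Finset.mem_filter] at hu
      refine le_trans (Finset.card_le_card ?_) (not_lt.1 hu.2.2)
      intro y hy
      rw [Finset.mem_filter, Finset.mem_filter] at hy
      exact Finset.mem_filter.2 ⟨Finset.mem_univ _, hy.1.2.1, hy.2⟩
    · intro u hu
      rw [Finset.mem_filter] at hu
      have hlt : (W.erase v).card < m := by
        rw [← hW]
        exact Finset.card_erase_lt_of_mem hv
      exact ih _ hlt (W.erase v) rfl u hu.1

theorem t_col (h : STP) : COL := by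
  intro V _ _ G _ k hh Δ l b hk hl hdeg hB hnum
  have claim := COL_claim h G k hh Δ l b hk hl hdeg hB hnum
  have hne : ∀ W : Finset V, (prop G k W).Nonempty := by
    intro W
    induction W using Finset.induction_on with
    | empty => exact ⟨fun _ => ⟨0, hk⟩, Finset.mem_filter.2 ⟨Finset.mem_univ _, fun x hx => by simp at hx⟩⟩
    | insert v S hv ih =>
      by_contra hcon
      rw [Finset.not_nonempty_iff_eq_empty] at hcon
      have h1 := claim _ (insert v S) rfl v (Finset.mem_insert_self v S)
      rw [Finset.erase_insert hv, hcon, Finset.card_empty, Nat.cast_zero, mul_zero] at h1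
      have h2 : (0 : ℝ) < ((prop G k S).card : ℝ) := by exact_mod_cast Finset.card_pos.2 ih
      have h3 := mul_pos hl h2
      linarith
  obtain ⟨c, hc⟩ := hne Finset.univ
  rw [prop, Finset.mem_filter] at hc
  exact ⟨SimpleGraph.Coloring.mk c fun {x y} hxy => hc.2 x (Finset.mem_univ _) y (Finset.mem_univ _) hxy⟩

end Pool.Agent.helper43.TG
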