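import Pool.Agent.helper43.TG.Spec

set_option autoImplicit false

namespace Pool.Agent.helper43.TG

open scoped RealInnerProductSpace
open MeasureTheory

lemma KLB_near {n : ℕ} (S : Finset (E n)) (hS : IsKissing S)
    (hmax : ∀ S' : Finset (E n), IsKissing S' → S'.card ≤ S.card) (u : E n) (hu : ‖u‖ = 2) :
    ∃ x ∈ S, dist u x < 2 := by
  by_contra hcon
  push Not at hcon
  have hnot : u ∉ S := by
    intro h
    have := hcon u h
    rw [dist_self] at this
    linarith
  have hk : IsKissing (insert u S) := by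
    refine ⟨fun x hx => ?_, fun x hx y hy hxy => ?_⟩
    · rcases Finset.mem_insert.1 hx with h | h
      · rw [h]; exact hu
      · exact hS.1 x h
    · rcases Finset.mem_insert.1 hx with h | h
      · rcases Finset.mem_insert.1 hy with h' | h'
        · exact absurd (h.trans h'.symm) hxy
        · rw [h]; exact hcon y h'
      · rcases Finset.mem_insert.1 hy with h' | h'
        · rw [h', dist_comm]; exact hcon x h
        · exact hS.2 x h y h' hxy
  have := hmax _ hk
  rw [Finset.card_insert_of_notMem hnot] at this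
  omega

lemma KLB_cover {n : ℕ} (hn : 1 ≤ n) (S : Finset (E n)) (hS : IsKissing S)
    (hmax : ∀ S' : Finset (E n), IsKissing S' → S'.card ≤ S.card) (y : E n) (hy : ‖y‖ < 1) :
    ∃ x ∈ S, dist y ((1 / 4 : ℝ) • x) < Real.sqrt 3 / 2 := by
  have h3 : Real.sqrt 3 ^ 2 = 3 := Real.sq_sqrt (by norm_num)
  have h30 : 0 ≤ Real.sqrt 3 := Real.sqrt_nonneg 3
  by_cases hy0 : y = 0
  · obtain ⟨x, hx, _⟩ := KLB_near S hS hmax (EuclideanSpace.single (⟨0, hn⟩ : Fin n) (2 : ℝ)) (by simp)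
    refine ⟨x, hx, ?_⟩
    rw [hy0, dist_zero_left, norm_smul, hS.1 x hx, Real.norm_of_nonneg (by norm_num)]
    nlinarith
  · have hyn : 0 < ‖y‖ := norm_pos_iff.2 hy0
    obtain ⟨x, hx, hd⟩ := KLB_near S hS hmax ((2 / ‖y‖) • y) (by
      rw [norm_smul, Real.norm_of_nonneg (by positivity), div_mul_cancel₀ _ hyn.ne'])
    refine ⟨x, hx, ?_⟩
    have hxn := hS.1 x hx
    have h1 : ‖(2 / ‖y‖) • y - x‖ ^ 2 < 4 := by
      rw [dist_eq_norm] at hd
      have := norm_nonneg ((2 / ‖y‖) • y - x)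
      nlinarith
    rw [norm_sub_sq_real, norm_smul, Real.norm_of_nonneg (by positivity), div_mul_cancel₀ _ hyn.ne', hxn,
      real_inner_smul_left] at h1
    have h2 : ‖y‖ < ⟪y, x⟫ := by
      have h4 : 2 < 2 / ‖y‖ * ⟪y, x⟫ := by linarith
      have h5 : 2 / ‖y‖ * ⟪y, x⟫ = 2 * (⟪y, x⟫ / ‖y‖) := by ring
      rw [h5] at h4
      have h6 : 1 < ⟪y, x⟫ / ‖y‖ := by linarith
      rwa [one_lt_div hyn] at h6
    rw [dist_eq_norm]
    refine lt_of_pow_lt_pow_left₀ 2 (by positivity) ?_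
    rw [norm_sub_sq_real, norm_smul, real_inner_smul_right, hxn, Real.norm_of_nonneg (by norm_num), div_pow,
      h3]
    nlinarith

theorem t_klb (h : KGR) : KLB := by
  intro n hn
  obtain ⟨⟨S, hS, hcard⟩, hub⟩ := h n
  have hmax : ∀ S' : Finset (E n), IsKissing S' → S'.card ≤ S.card := by
    intro S' hS'
    rw [hcard]
    exact hub ⟨S', hS', rfl⟩
  have hsub : Metric.ball (0 : E n) 1 ⊆ ⋃ x ∈ S, Metric.ball ((1 / 4 : ℝ) • x) (Real.sqrt 3 / 2) := by
    intro y hy
    rw [mem_ball_zero_iff] at hy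
    obtain ⟨x, hx, hxy⟩ := KLB_cover hn S hS hmax y hy
    simp only [Set.mem_iUnion]
    exact ⟨x, hx, hxy⟩
  have h1 := (measure_mono (μ := (volume : Measure (E n))) hsub).trans (measure_biUnion_finset_le S _)
  have h30 : 0 < Real.sqrt 3 := Real.sqrt_pos.2 (by norm_num)
  have h2 : ∀ x ∈ S, (volume : Measure (E n)) (Metric.ball ((1 / 4 : ℝ) • x) (Real.sqrt 3 / 2)) =
      ENNReal.ofReal ((Real.sqrt 3 / 2) ^ n) * volume (Metric.ball (0 : E n) 1) := by
    intro x _
    rw [Measure.addHaar_ball_of_pos _ _ (by positivity), finrank_euclideanSpace_fin]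
  rw [Finset.sum_congr rfl h2, Finset.sum_const, nsmul_eq_mul] at h1
  have hv0 : (volume : Measure (E n)) (Metric.ball (0 : E n) 1) ≠ 0 :=
    (Metric.measure_ball_pos volume 0 one_pos).ne'
  have hvt : (volume : Measure (E n)) (Metric.ball (0 : E n) 1) ≠ ⊤ := measure_ball_lt_top.ne
  have h3 := ENNReal.toReal_mono (ENNReal.mul_ne_top (ENNReal.natCast_ne_top _)
    (ENNReal.mul_ne_top ENNReal.ofReal_ne_top hvt)) h1
  rw [ENNReal.toReal_mul, ENNReal.toReal_mul, ENNReal.toReal_natCast,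
    ENNReal.toReal_ofReal (by positivity)] at h3
  have hvpos := ENNReal.toReal_pos hv0 hvt
  have h4 : 1 ≤ (S.card : ℝ) * (Real.sqrt 3 / 2) ^ n := by
    by_contra hcon
    push Not at hcon
    have := mul_lt_mul_of_pos_right hcon hvpos
    linarith [mul_assoc (S.card : ℝ) ((Real.sqrt 3 / 2) ^ n)
      ((volume : Measure (E n)) (Metric.ball (0 : E n) 1)).toReal]
  rw [← hcard]
  have h5 : (2 / Real.sqrt 3) ^ n * (Real.sqrt 3 / 2) ^ n = 1 := by
    rw [← mul_pow]
    have : 2 / Real.sqrt 3 * (Real.sqrt 3 / 2) = 1 := by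
      field_simp
    rw [this, one_pow]
  have h6 : (2 / Real.sqrt 3) ^ n * (Real.sqrt 3 / 2) ^ n ≤ (S.card : ℝ) * (Real.sqrt 3 / 2) ^ n := by
    rw [h5]
    exact h4
  exact le_of_mul_le_mul_right h6 (by positivity)

end Pool.Agent.helper43.TG
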